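import Pool.Agent.Helper96.GU.St

/-!
Project GU (MP_2c90c1_al): module HOM (products of conjugates without the removed cell).
-/

set_option autoImplicit false

namespace Pool.Agent.Helper48.GU

open Pool.Agent.Helper96.UT hiding StTOP TopV TopE tht Bd VC EC
open Pool.Agent.Helper96.GU

theorem tHOM : StRHO → StHOM := by
  intro hRHO α Z Ω _ E C hC u hu k hS C' hC' v q hq hN
  obtain ⟨ρ, r1, r2, r3, r4, r5, -⟩ := hRHO α Z Ω E C hC u hu k hS
  have a1 : ∀ x : Ω, act x (1 : FreeGroup α) = x := by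
    intro x
    simp
  have hone : ∀ x, ρ x 1 = 1 := by
    intro x
    have h := r1 x 1 1
    rw [mul_one, a1] at h
    exact mul_eq_left.1 h.symm
  have hinv : ∀ (x : Ω) (g : FreeGroup α), ρ (act x g) g⁻¹ = (ρ x g)⁻¹ := by
    intro x g
    have h := r1 x g g⁻¹
    rw [mul_inv_cancel, hone] at h
    exact (inv_eq_of_mul_eq_one_right h.symm).symm
  have claim : ∀ g ∈ Nc Z E C v, act v g = v ∧
      ρ v g ∈ Nc Z (E \ {ed (act u (pre Z.c k)) (Z.c k)}) C' v := by
    intro g hg
    unfold Nc at hg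
    induction hg using Subgroup.closure_induction with
    | mem x hx =>
      obtain ⟨p, hp, hpC, rfl⟩ := hx
      have hfix := hC.fix _ hpC
      have hact : act v (FreeGroup.mk p * Z.s * (FreeGroup.mk p)⁻¹) = v := by
        rw [act_mul, act_mul, hfix]
        exact act_inv_eq rfl
      refine ⟨hact, ?_⟩
      rw [r1, r1, act_mul, hfix, hinv]
      by_cases huu : act v (FreeGroup.mk p) = u
      · rw [huu, r4, mul_one, mul_inv_cancel]
        exact Subgroup.one_mem _
      · rw [r3 _ hpC huu]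
        obtain ⟨p', h1, h2, h3⟩ := r5 v p hp
        rw [← h2]
        exact Subgroup.subset_closure ⟨p', h1, by rw [h3]; exact (hC' _).2 ⟨hpC, huu⟩, rfl⟩
    | one =>
      refine ⟨a1 v, ?_⟩
      rw [hone]
      exact Subgroup.one_mem _
    | mul x y hx hy ihx ihy =>
      refine ⟨by rw [act_mul, ihx.1, ihy.1], ?_⟩
      rw [r1, ihx.1]
      exact Subgroup.mul_mem _ ihx.2 ihy.2
    | inv x hx ih =>
      refine ⟨act_inv_eq ih.1, ?_⟩
      have h := hinv v x
      rw [ih.1] at h
      rw [h]
      exact Subgroup.inv_mem _ ih.2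
  have h := (claim _ hN).2
  rwa [r2 v q hq] at h

end Pool.Agent.Helper48.GU
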